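import Pool.Agent.MP_bb6eef_co.H88.Orient

set_option autoImplicit false

open Finset

namespace Pool.Agent.MP_bb6eef_co.H88

theorem chunk {α : Type} [DecidableEq α] (m : ℕ) (hm : 0 < m) (Z : Finset α) :
    ∃ 𝒞 : Finset (Finset α), (∀ c ∈ 𝒞, c ⊆ Z ∧ c.card ≤ m) ∧ (∀ z ∈ Z, ∃ c ∈ 𝒞, z ∈ c) ∧
      m * 𝒞.card ≤ Z.card + m := by
  induction hn : Z.card using Nat.strong_induction_on generalizing Z with
  | _ n ih =>
    by_cases h : Z.card ≤ m
    · exact ⟨{Z}, by simpa using h, by simp, by simp⟩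
    · obtain ⟨T, hT, hTm⟩ := exists_subset_card_eq (s := Z) (n := m) (by omega)
      have hc : (Z \ T).card + m = n := by rw [← hTm, card_sdiff_add_card_eq_card hT, hn]
      obtain ⟨𝒞, h1, h2, h3⟩ := ih (Z \ T).card (by omega) (Z \ T) rfl
      refine ⟨insert T 𝒞, ?_, ?_, ?_⟩
      · intro c hc
        rcases mem_insert.mp hc with rfl | hc
        · exact ⟨hT, hTm.le⟩
        · exact ⟨(h1 c hc).1.trans sdiff_subset, (h1 c hc).2⟩
      · intro z hz
        by_cases hzT : z ∈ T
        · exact ⟨T, mem_insert_self _ _, hzT⟩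
        · obtain ⟨c, hc, hzc⟩ := h2 z (mem_sdiff.mpr ⟨hz, hzT⟩)
          exact ⟨c, mem_insert_of_mem hc, hzc⟩
      · have := card_insert_le T 𝒞
        nlinarith

theorem exists_idx {α κ : Type} [Fintype α] [DecidableEq κ] (cls : α → κ) :
    ∃ idx : α → ℕ, (∀ x y, cls x = cls y → idx x = idx y → x = y) ∧
      ∀ x, idx x < (univ.filter fun y => cls y = cls x).card := by
  let e : ∀ c : κ, (univ.filter fun y => cls y = c) ≃ Fin (univ.filter fun y => cls y = c).card :=
    fun c => (univ.filter fun y => cls y = c).equivFin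
  have hm : ∀ x c, cls x = c → x ∈ univ.filter fun y => cls y = c := fun x c h => by simp [h]
  refine ⟨fun x => (e (cls x) ⟨x, hm x _ rfl⟩ : ℕ), ?_, fun x => (e (cls x) ⟨x, hm x _ rfl⟩).2⟩
  intro x y hxy h
  have key : ∀ c (h1 : cls y = c), ((e (cls y) ⟨y, hm y _ rfl⟩ : ℕ)) = (e c ⟨y, hm y _ h1⟩ : ℕ) := by
    intro c h1
    subst h1
    rfl
  simp only at h
  rw [key (cls x) hxy.symm] at h
  have := (e (cls x)).injective (Fin.ext h)
  exact congrArg Subtype.val this

section Blocks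

variable {α κ : Type} [Fintype α] [DecidableEq α] [DecidableEq κ] (cls : α → κ) (idx : α → ℕ)

def lab (r : ℕ) (x : α) : κ × ℕ := (cls x, idx x / r)

def blk (r : ℕ) (q : κ × ℕ) : Finset α := univ.filter fun y => lab cls idx r y = q

omit [DecidableEq α] in
theorem mem_blk {r : ℕ} {q : κ × ℕ} {y : α} : y ∈ blk cls idx r q ↔ lab cls idx r y = q := by
  simp [blk]

omit [DecidableEq α] in
theorem card_blk (hinj : ∀ x y, cls x = cls y → idx x = idx y → x = y) {r : ℕ} (hr : 0 < r)
    (q : κ × ℕ) : (blk cls idx r q).card ≤ r := by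
  refine le_trans (card_le_card_of_injOn (t := range r) (fun y => idx y % r) ?_ ?_) (by simp)
  · intro y _
    exact mem_coe.mpr (mem_range.mpr (Nat.mod_lt _ hr))
  · intro x hx y hy h
    have h1 := ((mem_blk cls idx).mp hx).trans ((mem_blk cls idx).mp hy).symm
    simp only [lab, Prod.mk.injEq] at h1
    apply hinj x y h1.1
    simp only at h
    rw [← Nat.div_add_mod (idx x) r, ← Nat.div_add_mod (idx y) r, h1.2, h]

def small (m : ℕ) (B : Finset α) : Finset (Finset α) := B.powerset.filter fun T => T.card ≤ m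

/-- The dictionary sets available at a vertex. -/
def Dx (r R m : ℕ) (x : α) : Finset (Finset α) :=
  (blk cls idx r (lab cls idx r x)).powerset ∪ small m (blk cls idx R (lab cls idx R x)) ∪
    (small m (blk cls idx R (lab cls idx R x))).image fun T => blk cls idx R (lab cls idx R x) \ T

def Dict (r R m : ℕ) (D : Finset α) : Prop := ∀ x ∈ D, D ∈ Dx cls idx r R m x

theorem dict1 {r R m : ℕ} {q : κ × ℕ} {D : Finset α} (h : D ⊆ blk cls idx r q) :
    Dict cls idx r R m D := by
  intro x hx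
  have := (mem_blk cls idx).mp (h hx)
  rw [Dx, this]
  exact mem_union_left _ (mem_union_left _ (mem_powerset.mpr h))

theorem dict2 {r R m : ℕ} {q : κ × ℕ} {D : Finset α} (h : D ⊆ blk cls idx R q) (hm : D.card ≤ m) :
    Dict cls idx r R m D := by
  intro x hx
  have := (mem_blk cls idx).mp (h hx)
  rw [Dx, this]
  exact mem_union_left _ (mem_union_right _ (mem_filter.mpr ⟨mem_powerset.mpr h, hm⟩))

theorem dict3 {r R m : ℕ} {q : κ × ℕ} {D : Finset α} (h : D ⊆ blk cls idx R q)
    (hm : (blk cls idx R q \ D).card ≤ m) : Dict cls idx r R m D := by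
  intro x hx
  have := (mem_blk cls idx).mp (h hx)
  rw [Dx, this]
  refine mem_union_right _ (mem_image.mpr ⟨blk cls idx R q \ D,
    mem_filter.mpr ⟨mem_powerset.mpr sdiff_subset, hm⟩, ?_⟩)
  exact Finset.sdiff_sdiff_eq_self h

theorem sparse_cover (r R m : ℕ) (hm : 0 < m) (Z : Finset α) :
    ∃ O : Finset (Finset α), (∀ D ∈ O, Dict cls idx r R m D ∧ D ⊆ Z) ∧ (∀ z ∈ Z, ∃ D ∈ O, z ∈ D) ∧
      m * O.card ≤ Z.card + m * (univ.image (lab cls idx R)).card := by
  choose 𝒞 h1 h2 h3 using fun q : κ × ℕ => chunk m hm (Z.filter fun y => lab cls idx R y = q)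
  refine ⟨(univ.image (lab cls idx R)).biUnion 𝒞, ?_, ?_, ?_⟩
  · intro D hD
    obtain ⟨q, -, hq⟩ := mem_biUnion.mp hD
    refine ⟨dict2 cls idx (q := q) (fun y hy => ?_) (h1 q D hq).2,
      (h1 q D hq).1.trans (filter_subset _ _)⟩
    exact (mem_blk cls idx).mpr (mem_filter.mp ((h1 q D hq).1 hy)).2
  · intro z hz
    obtain ⟨c, hc, hzc⟩ := h2 (lab cls idx R z) z (mem_filter.mpr ⟨hz, rfl⟩)
    exact ⟨c, mem_biUnion.mpr ⟨_, mem_image_of_mem _ (mem_univ z), hc⟩, hzc⟩
  · have e : Z.card = ∑ q ∈ univ.image (lab cls idx R),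
        (Z.filter fun y => lab cls idx R y = q).card :=
      card_eq_sum_card_fiberwise fun y _ => mem_coe.mpr (mem_image_of_mem _ (mem_univ y))
    calc m * ((univ.image (lab cls idx R)).biUnion 𝒞).card
        ≤ m * ∑ q ∈ univ.image (lab cls idx R), (𝒞 q).card :=
          Nat.mul_le_mul_left _ card_biUnion_le
      _ = ∑ q ∈ univ.image (lab cls idx R), m * (𝒞 q).card := mul_sum _ _ _
      _ ≤ ∑ q ∈ univ.image (lab cls idx R),
          ((Z.filter fun y => lab cls idx R y = q).card + m) := sum_le_sum fun q _ => h3 q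
      _ = _ := by rw [sum_add_distrib, ← e, sum_const, smul_eq_mul, mul_comm]

theorem one_side (r C m : ℕ) (hC : 0 < C) (hm : 0 < m) (Al : Finset α) (Q : Finset (κ × ℕ))
    (Fl : κ → Prop) [DecidablePred Fl] (Z : Finset α) (hZ : Z ⊆ Al) :
    ∃ O : Finset (Finset α), (∀ D ∈ O, Dict cls idx r (r * C) m D ∧ D ⊆ Al) ∧
      (∀ y ∈ Al, lab cls idx (r * C) y ∈ Q ∨ Fl (cls y) ∨ y ∈ Z → ∃ D ∈ O, y ∈ D) ∧
      m * O.card ≤ m * C * Q.card + C * (univ.filter fun y => Fl (cls y) ∧ y ∉ Al).card +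
        2 * m * (univ.image (lab cls idx (r * C))).card + Z.card := by
  set Lab := univ.image (lab cls idx (r * C)) with hLab
  let BadQ := Lab.filter fun q => Fl q.1 ∧ m < (blk cls idx (r * C) q \ Al).card
  let O1 := (Q ∪ BadQ).biUnion fun q => (range C).image fun i => Al ∩ blk cls idx r (q.1, C * q.2 + i)
  let O2 := (Lab.filter fun q => (blk cls idx (r * C) q \ Al).card ≤ m).image
    fun q => blk cls idx (r * C) q ∩ Al
  obtain ⟨O3, h31, h32, h33⟩ := sparse_cover cls idx r (r * C) m hm Z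
  have hBad : m * BadQ.card ≤ (univ.filter fun y => Fl (cls y) ∧ y ∉ Al).card := by
    have e : (univ.filter fun y => Fl (cls y) ∧ y ∉ Al).card = ∑ q ∈ Lab,
        ((univ.filter fun y => Fl (cls y) ∧ y ∉ Al).filter
          fun y => lab cls idx (r * C) y = q).card :=
      card_eq_sum_card_fiberwise fun y _ => mem_coe.mpr (mem_image_of_mem _ (mem_univ y))
    rw [e, mul_comm, ← smul_eq_mul, ← sum_const]
    refine le_trans (sum_le_sum fun q hq => ?_) (sum_le_sum_of_subset (filter_subset _ Lab))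
    obtain ⟨-, hF, hlt⟩ := mem_filter.mp hq
    refine hlt.le.trans (card_le_card fun y hy => ?_)
    obtain ⟨h1, h2⟩ := mem_sdiff.mp hy
    have h3 := (mem_blk cls idx).mp h1
    refine mem_filter.mpr ⟨mem_filter.mpr ⟨mem_univ _, ?_, h2⟩, h3⟩
    rw [← h3] at hF
    exact hF
  have hO1 : O1.card ≤ (Q.card + BadQ.card) * C := by
    refine (card_biUnion_le_card_mul _ _ C fun q _ => ?_).trans
      (Nat.mul_le_mul_right _ (card_union_le _ _))
    exact card_image_le.trans (by simp)
  have hO2 : O2.card ≤ Lab.card := card_image_le.trans (card_filter_le _ _)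
  have hcov1 : ∀ y ∈ Al, lab cls idx (r * C) y ∈ Q ∪ BadQ → ∃ D ∈ O1, y ∈ D := by
    intro y hy hq
    refine ⟨Al ∩ blk cls idx r (cls y, C * (idx y / (r * C)) + idx y / r % C), ?_, ?_⟩
    · exact mem_biUnion.mpr ⟨_, hq, mem_image.mpr ⟨_, mem_range.mpr (Nat.mod_lt _ hC), rfl⟩⟩
    · refine mem_inter.mpr ⟨hy, (mem_blk cls idx).mpr ?_⟩
      rw [lab, ← Nat.div_div_eq_div_mul, Nat.div_add_mod]
  refine ⟨O1 ∪ O2 ∪ O3, ?_, ?_, ?_⟩
  · intro D hD
    rcases mem_union.mp hD with hD | hD
    · rcases mem_union.mp hD with hD | hD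
      · obtain ⟨q, -, hq⟩ := mem_biUnion.mp hD
        obtain ⟨i, -, rfl⟩ := mem_image.mp hq
        exact ⟨dict1 cls idx inter_subset_right, inter_subset_left⟩
      · obtain ⟨q, hq, rfl⟩ := mem_image.mp hD
        refine ⟨dict3 cls idx inter_subset_left ?_, inter_subset_right⟩
        rw [sdiff_inter_self_left]
        exact (mem_filter.mp hq).2
    · exact ⟨(h31 D hD).1, (h31 D hD).2.trans hZ⟩
  · intro y hy h
    have hyL : lab cls idx (r * C) y ∈ Lab := mem_image_of_mem _ (mem_univ y)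
    rcases h with h | h | h
    · obtain ⟨D, hD, hyD⟩ := hcov1 y hy (mem_union_left _ h)
      exact ⟨D, mem_union_left _ (mem_union_left _ hD), hyD⟩
    · by_cases hb : (blk cls idx (r * C) (lab cls idx (r * C) y) \ Al).card ≤ m
      · refine ⟨_, mem_union_left _ (mem_union_right _
          (mem_image.mpr ⟨_, mem_filter.mpr ⟨hyL, hb⟩, rfl⟩)), ?_⟩
        exact mem_inter.mpr ⟨(mem_blk cls idx).mpr rfl, hy⟩
      · obtain ⟨D, hD, hyD⟩ := hcov1 y hy
          (mem_union_right _ (mem_filter.mpr ⟨hyL, h, not_le.mp hb⟩))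
        exact ⟨D, mem_union_left _ (mem_union_left _ hD), hyD⟩
    · obtain ⟨D, hD, hyD⟩ := h32 y h
      exact ⟨D, mem_union_right _ hD, hyD⟩
  · have h1 : (O1 ∪ O2 ∪ O3).card ≤ O1.card + O2.card + O3.card :=
      (card_union_le _ _).trans (Nat.add_le_add_right (card_union_le _ _) _)
    have h2 := Nat.mul_le_mul_left m h1
    have h3 := Nat.mul_le_mul_left m hO1
    have h4 := Nat.mul_le_mul_left m hO2
    have h5 := Nat.mul_le_mul_left C hBad
    nlinarith

omit [DecidableEq α] in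
theorem card_lab [Fintype κ] (hlt : ∀ x, idx x < (univ.filter fun y => cls y = cls x).card)
    (R : ℕ) : R * (univ.image (lab cls idx R)).card ≤ Fintype.card α + R * Fintype.card κ := by
  have h1 : univ.image (lab cls idx R) ⊆ univ.biUnion fun c : κ =>
      (range ((univ.filter fun y => cls y = c).card / R + 1)).image fun i => (c, i) := by
    intro q hq
    obtain ⟨x, -, rfl⟩ := mem_image.mp hq
    refine mem_biUnion.mpr ⟨cls x, mem_univ _, mem_image.mpr ⟨idx x / R, mem_range.mpr ?_, rfl⟩⟩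
    exact Nat.lt_succ_of_le (Nat.div_le_div_right (hlt x).le)
  have e : Fintype.card α = ∑ c : κ, (univ.filter fun y => cls y = c).card :=
    card_eq_sum_card_fiberwise fun y _ => mem_coe.mpr (mem_univ _)
  calc R * (univ.image (lab cls idx R)).card
      ≤ R * ∑ c : κ, ((univ.filter fun y => cls y = c).card / R + 1) := by
        refine Nat.mul_le_mul_left _ ((card_le_card h1).trans (card_biUnion_le.trans ?_))
        exact sum_le_sum fun c _ => card_image_le.trans (by simp)
    _ = ∑ c : κ, (R * ((univ.filter fun y => cls y = c).card / R) + R) := by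
        rw [mul_sum]; exact sum_congr rfl fun c _ => by ring
    _ ≤ ∑ c : κ, ((univ.filter fun y => cls y = c).card + R) :=
        sum_le_sum fun c _ => Nat.add_le_add_right (Nat.mul_div_le _ _) _
    _ = _ := by rw [sum_add_distrib, ← e, sum_const, card_univ, smul_eq_mul, mul_comm]

end Blocks

/-- From responsibilities to bicliques. -/
theorem payment {α : Type} [Fintype α] [DecidableEq α] (N : α → α → Prop)
    (Dx : α → Finset (Finset α)) (O I : α → Finset (Finset α))
    (hO : ∀ v, ∀ D ∈ O v, (∀ x ∈ D, D ∈ Dx x) ∧ ∀ y ∈ D, N v y)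
    (hI : ∀ v, ∀ D ∈ I v, (∀ x ∈ D, D ∈ Dx x) ∧ ∀ x ∈ D, N x v)
    (hcov : ∀ x y, N x y → (∃ D ∈ O x, y ∈ D) ∨ ∃ D ∈ I y, x ∈ D) :
    ∃ ℬ : Finset (Finset α × Finset α), (∀ p ∈ ℬ, ∀ x ∈ p.1, ∀ y ∈ p.2, N x y) ∧
      (∀ x y, N x y → ∃ p ∈ ℬ, x ∈ p.1 ∧ y ∈ p.2) ∧
      ∀ v, (ℬ.filter fun p => v ∈ p.1 ∨ v ∈ p.2).card ≤
        (O v).card + (I v).card + 2 * (Dx v).card := by
  let fo : Finset α → Finset α × Finset α := fun D => (univ.filter fun v => D ∈ O v, D)
  let fi : Finset α → Finset α × Finset α := fun D => (D, univ.filter fun v => D ∈ I v)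
  refine ⟨(univ.biUnion O).image fo ∪ (univ.biUnion I).image fi, ?_, ?_, ?_⟩
  · intro p hp x hx y hy
    rcases mem_union.mp hp with hp | hp
    · obtain ⟨D, -, rfl⟩ := mem_image.mp hp
      exact (hO x D (mem_filter.mp hx).2).2 y hy
    · obtain ⟨D, -, rfl⟩ := mem_image.mp hp
      exact (hI y D (mem_filter.mp hy).2).2 x hx
  · intro x y hxy
    rcases hcov x y hxy with ⟨D, hD, hy⟩ | ⟨D, hD, hx⟩
    · exact ⟨fo D, mem_union_left _ (mem_image_of_mem _ (mem_biUnion.mpr ⟨x, mem_univ _, hD⟩)),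
        mem_filter.mpr ⟨mem_univ _, hD⟩, hy⟩
    · exact ⟨fi D, mem_union_right _ (mem_image_of_mem _ (mem_biUnion.mpr ⟨y, mem_univ _, hD⟩)),
        hx, mem_filter.mpr ⟨mem_univ _, hD⟩⟩
  · intro v
    have hsub : (((univ.biUnion O).image fo ∪ (univ.biUnion I).image fi).filter
        fun p => v ∈ p.1 ∨ v ∈ p.2) ⊆
        ((O v).image fo ∪ (I v).image fi) ∪ ((Dx v).image fo ∪ (Dx v).image fi) := by
      intro p hp
      obtain ⟨hp, hv⟩ := mem_filter.mp hp
      rcases mem_union.mp hp with hp | hp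
      · obtain ⟨D, hD, rfl⟩ := mem_image.mp hp
        obtain ⟨w, -, hw⟩ := mem_biUnion.mp hD
        rcases hv with hv | hv
        · exact mem_union_left _ (mem_union_left _ (mem_image_of_mem _ (mem_filter.mp hv).2))
        · exact mem_union_right _ (mem_union_left _ (mem_image_of_mem _ ((hO w D hw).1 v hv)))
      · obtain ⟨D, hD, rfl⟩ := mem_image.mp hp
        obtain ⟨w, -, hw⟩ := mem_biUnion.mp hD
        rcases hv with hv | hv
        · exact mem_union_right _ (mem_union_right _ (mem_image_of_mem _ ((hI w D hw).1 v hv)))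
        · exact mem_union_left _ (mem_union_right _ (mem_image_of_mem _ (mem_filter.mp hv).2))
    have h1 := card_le_card hsub
    have h2 := card_union_le ((O v).image fo ∪ (I v).image fi) ((Dx v).image fo ∪ (Dx v).image fi)
    have h3 := card_union_le ((O v).image fo) ((I v).image fi)
    have h4 := card_union_le ((Dx v).image fo) ((Dx v).image fi)
    have h5 : ((O v).image fo).card ≤ (O v).card := card_image_le
    have h6 : ((I v).image fi).card ≤ (I v).card := card_image_le
    have h7 : ((Dx v).image fo).card ≤ (Dx v).card := card_image_le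
    have h8 : ((Dx v).image fi).card ≤ (Dx v).card := card_image_le
    omega

theorem card_small {α : Type} [DecidableEq α] (j m : ℕ) (hj : 3 * j ^ 2 ≤ 2 ^ j) (hj0 : 0 < j)
    (B : Finset α) (hB : B.card ≤ j * m * j) : (small m B).card ≤ 2 ^ (j * m) := by
  have hk : (0 : ℝ) < (j : ℝ) ^ 2 := by positivity
  have hk1 : (1 : ℝ) ≤ (j : ℝ) ^ 2 := one_le_pow₀ (by exact_mod_cast hj0)
  set x : ℝ := 1 / (j : ℝ) ^ 2 with hx
  have hx0 : 0 < x := by positivity
  have hx1 : x ≤ 1 := by rw [hx, div_le_one hk]; exact hk1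
  have h1 : ((small m B).card : ℝ) * x ^ m ≤ (x + 1) ^ B.card := by
    rw [← Finset.sum_pow_mul_eq_add_pow x 1 B]
    simp only [one_pow, mul_one]
    calc ((small m B).card : ℝ) * x ^ m = ∑ T ∈ small m B, x ^ m := by
          rw [sum_const, nsmul_eq_mul]
      _ ≤ ∑ T ∈ small m B, x ^ T.card :=
          sum_le_sum fun T hT => pow_le_pow_of_le_one hx0.le hx1 (mem_filter.mp hT).2
      _ ≤ ∑ T ∈ B.powerset, x ^ T.card :=
          sum_le_sum_of_subset_of_nonneg (filter_subset _ _) fun T _ _ => by positivity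
  have h2 : (x + 1) ^ B.card ≤ 3 ^ m := by
    calc (x + 1) ^ B.card ≤ (x + 1) ^ (j * m * j) := pow_le_pow_right₀ (by linarith) hB
      _ ≤ (Real.exp x) ^ (j * m * j) := pow_le_pow_left₀ (by positivity) (Real.add_one_le_exp x) _
      _ = (Real.exp 1) ^ m := by
          rw [← Real.exp_nat_mul, ← Real.exp_nat_mul]
          congr 1
          rw [hx]
          push_cast
          field_simp
      _ ≤ 3 ^ m := pow_le_pow_left₀ (by positivity) (by linarith [Real.exp_one_lt_d9]) _
  have h3 : ((small m B).card : ℝ) ≤ (3 * (j : ℝ) ^ 2) ^ m := by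
    have := h1.trans h2
    rw [hx, one_div, inv_pow, ← div_eq_mul_inv, div_le_iff₀ (by positivity), ← mul_pow] at this
    exact this
  have h4 : (3 * (j : ℝ) ^ 2) ^ m ≤ (2 : ℝ) ^ (j * m) := by
    rw [pow_mul]
    exact pow_le_pow_left₀ (by positivity) (by exact_mod_cast hj) _
  exact_mod_cast h3.trans h4

end Pool.Agent.MP_bb6eef_co.H88
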