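import Pool.Agent.MP_bb6eef_co.H88.Cover

set_option autoImplicit false

open Finset

namespace Pool.Agent.MP_bb6eef_co.H88

open Classical in
theorem cover_main {α κ : Type} [Fintype α] [DecidableEq α] [Fintype κ] [Nonempty α]
    (N : α → α → Prop) (cls : α → κ) (E Full : κ → κ → Prop) (rk : κ → ℕ)
    (hrk : ∀ u v, E u v → rk v < rk u) (htri : ∀ u v w, E u v → E v w → E u w → False)
    (γ : ℝ) (hγ : 0 < γ)
    (hexc : ((univ.filter fun p : α × α => ¬ E (cls p.1) (cls p.2) ∧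
      ¬ (Full (cls p.1) (cls p.2) ↔ N p.1 p.2)).card : ℝ) ≤ γ ^ 2 * (Fintype.card α : ℝ) ^ 2)
    (j m : ℕ) (hj : 3 * j ^ 2 ≤ 2 ^ j) (hj0 : 0 < j) (hm : 0 < m) :
    ∃ ℬ : Finset (Finset α × Finset α), (∀ p ∈ ℬ, ∀ x ∈ p.1, ∀ y ∈ p.2, N x y) ∧
      (∀ x y, N x y → ∃ p ∈ ℬ, x ∈ p.1 ∧ y ∈ p.2) ∧
      ∀ v, ((ℬ.filter fun p => v ∈ p.1 ∨ v ∈ p.2).card : ℝ) ≤
        (Fintype.card α : ℝ) / (j * m) * (1 / 4 + 4 / j + (j + 2) * j * γ) +
          ((j + 4) * Fintype.card κ + j) + 6 * 2 ^ (j * m) := by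
  obtain ⟨idx, hinj, hlt⟩ := exists_idx cls
  set n : ℝ := (Fintype.card α : ℝ) with hn
  have hn0 : 0 < n := by rw [hn]; exact_mod_cast Fintype.card_pos
  set Lab := univ.image (lab cls idx (j * m * j)) with hLab
  obtain ⟨o, ho⟩ := orient (fun q q' : κ × ℕ => E q.1 q'.1) (fun q => rk q.1)
    (fun u v h => hrk _ _ h) (fun u v w => htri _ _ _) Lab
  let Exc : α → α → Prop := fun x y => ¬ E (cls x) (cls y) ∧ ¬ (Full (cls x) (cls y) ↔ N x y)
  let exc : α → ℕ := fun x => (univ.filter fun y => Exc x y).card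
  let Bad : Finset α := univ.filter fun x => γ * n < exc x
  have hBad : (Bad.card : ℝ) ≤ γ * n := by
    have e : (univ.filter fun p : α × α => Exc p.1 p.2).card = ∑ x, exc x := by
      rw [card_eq_sum_card_fiberwise (f := Prod.fst) (t := univ) (fun _ _ => mem_coe.mpr (mem_univ _))]
      refine sum_congr rfl fun x _ => ?_
      symm
      apply card_bij (fun y _ => (x, y))
      · intro y hy
        simpa using hy
      · intro a _ b _ h
        exact (Prod.mk.inj h).2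
      · rintro ⟨a, b⟩ hp
        simp only [mem_filter, mem_univ, true_and] at hp
        obtain ⟨h1, rfl⟩ := hp
        exact ⟨b, by simpa using h1, rfl⟩
    have h1 : (Bad.card : ℝ) * (γ * n) ≤ ∑ x, (exc x : ℝ) := by
      calc (Bad.card : ℝ) * (γ * n) = ∑ x ∈ Bad, γ * n := by rw [sum_const, nsmul_eq_mul]
        _ ≤ ∑ x ∈ Bad, (exc x : ℝ) := sum_le_sum fun x hx => (mem_filter.mp hx).2.le
        _ ≤ ∑ x, (exc x : ℝ) :=
          sum_le_sum_of_subset_of_nonneg (subset_univ _) fun _ _ _ => by positivity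
    have h2 : ∑ x, (exc x : ℝ) ≤ γ ^ 2 * n ^ 2 := by
      rw [← Nat.cast_sum, ← e]
      exact hexc
    have h3 : (Bad.card : ℝ) * (γ * n) ≤ (γ * n) * (γ * n) := by nlinarith
    exact le_of_mul_le_mul_right h3 (by positivity)
  let L : α → κ × ℕ := lab cls idx (j * m * j)
  let Qo : α → Finset (κ × ℕ) := fun v =>
    Lab.filter fun q => L v ∈ Lab ∧ E (L v).1 q.1 ∧ o (L v) q = true
  let Qi : α → Finset (κ × ℕ) := fun v =>
    Lab.filter fun q => L v ∈ Lab ∧ E q.1 (L v).1 ∧ o q (L v) = false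
  choose O hO1 hO2 hO3 using fun x : α => one_side cls idx (j * m) j m hj0 hm
    (univ.filter fun y => N x y) (Qo x) (fun c => x ∉ Bad ∧ ¬ E (cls x) c ∧ Full (cls x) c)
    (univ.filter fun y => N x y ∧ x ∉ Bad ∧ Exc x y)
    (fun y hy => mem_filter.mpr ⟨mem_univ _, (mem_filter.mp hy).2.1⟩)
  choose I hI1 hI2 hI3 using fun y : α => one_side cls idx (j * m) j m hj0 hm
    (univ.filter fun x => N x y) (Qi y) (fun _ => False)
    (univ.filter fun x => N x y ∧ x ∈ Bad)
    (fun x hx => mem_filter.mpr ⟨mem_univ _, (mem_filter.mp hx).2.1⟩)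
  have hLm : ∀ v, L v ∈ Lab := fun v => mem_image_of_mem _ (mem_univ v)
  obtain ⟨ℬ, h1, h2, h3⟩ := payment N (Dx cls idx (j * m) (j * m * j) m) O I
    (fun v D hD => ⟨(hO1 v D hD).1, fun y hy => (mem_filter.mp ((hO1 v D hD).2 hy)).2⟩)
    (fun v D hD => ⟨(hI1 v D hD).1, fun y hy => (mem_filter.mp ((hI1 v D hD).2 hy)).2⟩)
    (by
      intro x y hxy
      by_cases hE : E (cls x) (cls y)
      · cases h : o (L x) (L y)
        · exact Or.inr (hI2 y x (mem_filter.mpr ⟨mem_univ _, hxy⟩)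
            (Or.inl (mem_filter.mpr ⟨hLm x, hLm y, hE, h⟩)))
        · exact Or.inl (hO2 x y (mem_filter.mpr ⟨mem_univ _, hxy⟩)
            (Or.inl (mem_filter.mpr ⟨hLm y, hLm x, hE, h⟩)))
      · by_cases hx : x ∈ Bad
        · exact Or.inr (hI2 y x (mem_filter.mpr ⟨mem_univ _, hxy⟩)
            (Or.inr (Or.inr (mem_filter.mpr ⟨mem_univ _, hxy, hx⟩))))
        · by_cases hF : Full (cls x) (cls y)
          · exact Or.inl (hO2 x y (mem_filter.mpr ⟨mem_univ _, hxy⟩)
              (Or.inr (Or.inl ⟨hx, hE, hF⟩)))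
          · exact Or.inl (hO2 x y (mem_filter.mpr ⟨mem_univ _, hxy⟩)
              (Or.inr (Or.inr (mem_filter.mpr ⟨mem_univ _, hxy, hx, hE, fun h => hF (h.mpr hxy)⟩)))))
  refine ⟨ℬ, h1, h2, fun v => ?_⟩
  have hgood : ∀ s : Finset α, (∀ y ∈ s, v ∉ Bad ∧ Exc v y) → (s.card : ℝ) ≤ γ * n := by
    intro s hs
    rcases s.eq_empty_or_nonempty with rfl | ⟨y, hy⟩
    · simp only [card_empty, Nat.cast_zero]; positivity
    · have hv : ¬ γ * n < exc v := fun h => (hs y hy).1 (mem_filter.mpr ⟨mem_univ _, h⟩)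
      refine le_trans ?_ (not_lt.mp hv)
      exact_mod_cast card_le_card fun y hy => mem_filter.mpr ⟨mem_univ _, (hs y hy).2⟩
  have a1 := hgood (univ.filter fun y => (v ∉ Bad ∧ ¬ E (cls v) (cls y) ∧ Full (cls v) (cls y)) ∧
      y ∉ univ.filter fun y => N v y) (by
    intro y hy
    obtain ⟨-, ⟨h1, h2, h3⟩, h4⟩ := mem_filter.mp hy
    exact ⟨h1, h2, fun h => h4 (mem_filter.mpr ⟨mem_univ _, h.mp h3⟩)⟩)
  have a2 := hgood (univ.filter fun y => N v y ∧ v ∉ Bad ∧ Exc v y) (by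
    intro y hy
    exact (mem_filter.mp hy).2.2)
  have a3 : ((univ.filter fun x => N x v ∧ x ∈ Bad).card : ℝ) ≤ γ * n := by
    refine le_trans ?_ hBad
    have : (univ.filter fun x => N x v ∧ x ∈ Bad) ⊆ Bad := fun x hx => (mem_filter.mp hx).2.2
    exact_mod_cast card_le_card this
  have a4 : (univ.filter fun y => False ∧ y ∉ univ.filter fun x => N x v).card = 0 := by simp
  have a5 : (Qo v).card + (Qi v).card ≤ Lab.card / 4 + 1 := ho (L v)
  have a6 : (Dx cls idx (j * m) (j * m * j) m v).card ≤ 3 * 2 ^ (j * m) := by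
    have b1 : (blk cls idx (j * m) (lab cls idx (j * m) v)).powerset.card ≤ 2 ^ (j * m) := by
      rw [card_powerset]
      exact Nat.pow_le_pow_right (by norm_num) (card_blk cls idx hinj (by positivity) _)
    have b2 := card_small j m hj hj0 (blk cls idx (j * m * j) (lab cls idx (j * m * j) v))
      (card_blk cls idx hinj (by positivity) _)
    have b3 : ((small m (blk cls idx (j * m * j) (lab cls idx (j * m * j) v))).image
      fun T => blk cls idx (j * m * j) (lab cls idx (j * m * j) v) \ T).card ≤ 2 ^ (j * m) :=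
      card_image_le.trans b2
    refine (card_union_le _ _).trans ?_
    refine (Nat.add_le_add_right (card_union_le _ _) _).trans ?_
    omega
  have a7 := card_lab cls idx hlt (j * m * j)
  have c1 := hO3 v
  have c2 := hI3 v
  rw [a4] at c2
  have c3 := h3 v
  rw [← hLab] at c1 c2 a7
  have a5' : 4 * ((Qo v).card + (Qi v).card) ≤ Lab.card + 4 := by omega
  have hjR : (0 : ℝ) < j := by exact_mod_cast hj0
  have hmR : (0 : ℝ) < m := by exact_mod_cast hm
  have d1 : (m : ℝ) * (O v).card ≤ m * j * (Qo v).card + j * (γ * n) + 2 * m * Lab.card + γ * n := by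
    have : ((m * (O v).card : ℕ) : ℝ) ≤ _ := Nat.cast_le.mpr c1
    push_cast at this
    nlinarith
  have d2 : (m : ℝ) * (I v).card ≤ m * j * (Qi v).card + 2 * m * Lab.card + γ * n := by
    have : ((m * (I v).card : ℕ) : ℝ) ≤ _ := Nat.cast_le.mpr c2
    push_cast at this
    nlinarith
  have d3 : 4 * (((Qo v).card : ℝ) + (Qi v).card) ≤ Lab.card + 4 := by exact_mod_cast a5'
  have d4 : (Lab.card : ℝ) ≤ n / (j * m * j) + Fintype.card κ := by
    have : ((j * m * j * Lab.card : ℕ) : ℝ) ≤ _ := Nat.cast_le.mpr a7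
    push_cast at this
    rw [div_add' _ _ _ (by positivity), le_div_iff₀ (by positivity)]
    nlinarith
  have d5 : ((O v).card : ℝ) + (I v).card ≤ j * (Lab.card / 4 + 1) + 4 * Lab.card +
      (j + 2) * (γ * n) / m := by
    have : (m : ℝ) * ((O v).card + (I v).card) ≤
        m * (j * (Lab.card / 4 + 1) + 4 * Lab.card + (j + 2) * (γ * n) / m) := by
      have e : (m : ℝ) * ((j + 2) * (γ * n) / m) = (j + 2) * (γ * n) := by field_simp
      have := mul_le_mul_of_nonneg_left d3 (show (0 : ℝ) ≤ m * j by positivity)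
      nlinarith
    exact le_of_mul_le_mul_left this hmR
  have d6 : ((ℬ.filter fun p => v ∈ p.1 ∨ v ∈ p.2).card : ℝ) ≤
      (O v).card + (I v).card + 6 * 2 ^ (j * m) := by
    have : (ℬ.filter fun p => v ∈ p.1 ∨ v ∈ p.2).card ≤
        (O v).card + (I v).card + 6 * 2 ^ (j * m) := by omega
    exact_mod_cast this
  have d7 : (j / 4 + 4) * (Lab.card : ℝ) ≤ (j / 4 + 4) * (n / (j * m * j) + Fintype.card κ) :=
    mul_le_mul_of_nonneg_left d4 (by positivity)
  have e1 : n / (j * m) * (1 / 4 + 4 / j + (j + 2) * j * γ) =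
      (j / 4 + 4) * (n / (j * m * j)) + (j + 2) * (γ * n) / m := by
    field_simp
  have hκ : (0 : ℝ) ≤ Fintype.card κ := by positivity
  rw [e1]
  nlinarith [mul_nonneg hjR.le hκ]

end Pool.Agent.MP_bb6eef_co.H88
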