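import Mathlib

set_option autoImplicit false

namespace Pool.Agent.MP_bb6eef_co.H88

/-- `f` is a monotone function from a subset of the poset `P` to the chain with `t` elements;
`f x = none` means that `x` is outside the domain. -/
def IsMono {n t : ℕ} (P : PartialOrder (Fin n)) (f : Fin n → Option (Fin t)) : Prop :=
  ∀ (x y : Fin n) (a b : Fin t), f x = some a → f y = some b → P.le x y → a ≤ b

/-- `R` is a local `t`-realiser of `P`. -/
def IsRealiser {n t : ℕ} (P : PartialOrder (Fin n)) (R : Finset (Fin n → Option (Fin t))) : Prop :=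
  (∀ f ∈ R, IsMono P f) ∧
    ∀ x y : Fin n, ¬ P.le y x → ∃ f ∈ R, ∃ a b : Fin t, f x = some a ∧ f y = some b ∧ a < b

/-- The local `t`-dimension of `P`. -/
noncomputable def ldim (t : ℕ) {n : ℕ} (P : PartialOrder (Fin n)) : ℕ :=
  sInf {d : ℕ | ∃ R : Finset (Fin n → Option (Fin t)), IsRealiser P R ∧
    ∀ x : Fin n, (R.filter fun f => f x ≠ none).card ≤ d}

/-- The largest local `t`-dimension of a poset with `n` elements. -/
noncomputable def maxLdim (t n : ℕ) : ℕ :=
  sSup (Set.range fun P : PartialOrder (Fin n) => ldim t P)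

end Pool.Agent.MP_bb6eef_co.H88
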