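import Pool.Agent.MP_bb6eef_co.H88.Upper

set_option autoImplicit false

open Finset Filter Topology

namespace Pool.Agent.MP_bb6eef_co.H88

def decode {σ : Type} : List (σ × Bool) → List (List σ)
  | [] => []
  | (p, true) :: w => [p] :: decode w
  | (p, false) :: w => ((decode w).headD [] |>.cons p) :: (decode w).tail

theorem enc_one {σ : Type} (l : List σ) (hl : l ≠ []) (w : List (σ × Bool)) :
    ∃ w' : List (σ × Bool), w'.length = l.length + w.length ∧ decode w' = l :: decode w := by
  induction l with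
  | nil => exact absurd rfl hl
  | cons p l ih =>
    by_cases h : l = []
    · subst h
      exact ⟨(p, true) :: w, by simp [add_comm], rfl⟩
    · obtain ⟨w', h1, h2⟩ := ih h
      refine ⟨(p, false) :: w', by simp [h1]; omega, ?_⟩
      simp [decode, h2]

theorem enc_all {σ : Type} (LL : List (List σ)) :
    ∃ w : List (σ × Bool), w.length = (LL.map List.length).sum ∧
      ∀ l, l ≠ [] → (l ∈ decode w ↔ l ∈ LL) := by
  induction LL with
  | nil => exact ⟨[], rfl, fun l _ => by simp [decode]⟩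
  | cons l LL ih =>
    obtain ⟨w, h1, h2⟩ := ih
    by_cases h : l = []
    · subst h
      exact ⟨w, by simpa using h1, fun l hl => by simp [h2 l hl, hl]⟩
    · obtain ⟨w', h3, h4⟩ := enc_one l h w
      exact ⟨w', by simp [h3, h1], fun l' hl' => by simp [h4, h2 l' hl']⟩

def rel {n t : ℕ} (w : List ((Fin n × Fin t) × Bool)) (x y : Fin n) : Prop :=
  ∃ l ∈ decode w, ∃ a b : Fin t, (x, a) ∈ l ∧ (y, b) ∈ l ∧ a < b

theorem pad {n t : ℕ} (p : Fin n × Fin t) (w : List ((Fin n × Fin t) × Bool)) (k : ℕ) :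
    ∃ w' : List ((Fin n × Fin t) × Bool), w'.length = w.length + k ∧
      ∀ x y, rel w' x y ↔ rel w x y := by
  induction k with
  | zero => exact ⟨w, rfl, fun _ _ => Iff.rfl⟩
  | succ k ih =>
    obtain ⟨w', h1, h2⟩ := ih
    refine ⟨(p, true) :: w', by simp [h1]; omega, fun x y => Iff.trans ?_ (h2 x y)⟩
    constructor
    · rintro ⟨l, hl, a, b, ha, hb, hab⟩
      rcases List.mem_cons.mp hl with rfl | hl
      · rw [List.mem_singleton] at ha hb
        have := (Prod.mk.inj (ha.trans hb.symm)).2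
        exact absurd this (ne_of_lt hab)
      · exact ⟨l, hl, a, b, ha, hb, hab⟩
    · rintro ⟨l, hl, h⟩
      exact ⟨l, List.mem_cons_of_mem _ hl, h⟩

theorem exists_word {n t d : ℕ} (p : Fin n × Fin t) (P : PartialOrder (Fin n))
    (R : Finset (Fin n → Option (Fin t))) (hR : IsRealiser P R)
    (hd : ∀ x, (R.filter fun f => f x ≠ none).card ≤ d) :
    ∃ w : List.Vector ((Fin n × Fin t) × Bool) (n * d), ∀ x y, rel w.1 x y ↔ ¬ P.le y x := by
  let gr : (Fin n → Option (Fin t)) → Finset (Fin n × Fin t) :=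
    fun f => univ.filter fun q => f q.1 = some q.2
  obtain ⟨w, h1, h2⟩ := enc_all (R.toList.map fun f => (gr f).toList)
  have hlen : w.length ≤ n * d := by
    rw [h1, List.map_map]
    have e1 : (List.map (List.length ∘ fun f => (gr f).toList) R.toList).sum =
        ∑ f ∈ R, (gr f).card := by
      rw [← Finset.sum_map_toList]
      congr 1
      refine List.map_congr_left fun f _ => ?_
      simp
    rw [e1]
    calc ∑ f ∈ R, (gr f).card ≤ ∑ f ∈ R, (univ.filter fun x => f x ≠ none).card := by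
          refine sum_le_sum fun f _ => card_le_card_of_injOn Prod.fst ?_ ?_
          · intro q hq
            have := (mem_filter.mp hq).2
            simp [this]
          · intro q hq q' hq' h
            have a1 := (mem_filter.mp hq).2
            have a2 := (mem_filter.mp hq').2
            rw [h, a2] at a1
            exact Prod.ext h (Option.some.inj a1).symm
      _ = ∑ x : Fin n, (R.filter fun f => f x ≠ none).card := by
          simp only [card_filter]
          exact sum_comm
      _ ≤ ∑ x : Fin n, d := sum_le_sum fun x _ => hd x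
      _ = n * d := by simp
  obtain ⟨w', h3, h4⟩ := pad p w (n * d - w.length)
  refine ⟨⟨w', by omega⟩, fun x y => (h4 x y).trans ⟨?_, ?_⟩⟩
  · rintro ⟨l, hl, a, b, ha, hb, hab⟩ hyx
    obtain ⟨f, hf, rfl⟩ := List.mem_map.mp ((h2 l (List.ne_nil_of_mem ha)).mp hl)
    rw [mem_toList] at hf ha hb
    exact absurd (hR.1 f hf y x b a (mem_filter.mp hb).2 (mem_filter.mp ha).2 hyx) (not_le.mpr hab)
  · intro h
    obtain ⟨f, hf, a, b, ha, hb, hab⟩ := hR.2 x y h
    have ha' : (x, a) ∈ (gr f).toList := mem_toList.mpr (mem_filter.mpr ⟨mem_univ _, ha⟩)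
    have hb' : (y, b) ∈ (gr f).toList := mem_toList.mpr (mem_filter.mpr ⟨mem_univ _, hb⟩)
    exact ⟨_, (h2 _ (List.ne_nil_of_mem ha')).mpr
      (List.mem_map.mpr ⟨f, mem_toList.mpr hf, rfl⟩), a, b, ha', hb', hab⟩

theorem exists_opt {n t : ℕ} (ht : 2 ≤ t) (P : PartialOrder (Fin n)) :
    ∃ R : Finset (Fin n → Option (Fin t)), IsRealiser P R ∧
      ∀ x, (R.filter fun f => f x ≠ none).card ≤ maxLdim t n := by
  classical
  have hex : ∀ P : PartialOrder (Fin n), ∃ R : Finset (Fin n → Option (Fin t)), IsRealiser P R := by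
    intro P
    obtain ⟨R, hR, -⟩ := real_of_bicl ht P
      ((univ.filter fun q : Fin n × Fin n => ¬ P.le q.2 q.1).image fun q => ({q.1}, {q.2}))
      (by
        intro p hp x hx y hy
        obtain ⟨q, hq, rfl⟩ := mem_image.mp hp
        rw [mem_singleton.mp hx, mem_singleton.mp hy]
        exact (mem_filter.mp hq).2)
      (fun x y h => ⟨_, mem_image.mpr ⟨(x, y), mem_filter.mpr ⟨mem_univ _, h⟩, rfl⟩,
        mem_singleton_self _, mem_singleton_self _⟩)
    exact ⟨R, hR⟩
  have hmem : ∀ P : PartialOrder (Fin n), Fintype.card (Fin n → Option (Fin t)) ∈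
      {d : ℕ | ∃ R : Finset (Fin n → Option (Fin t)), IsRealiser P R ∧
        ∀ x : Fin n, (R.filter fun f => f x ≠ none).card ≤ d} := by
    intro P
    obtain ⟨R, hR⟩ := hex P
    exact ⟨R, hR, fun x => card_le_univ _⟩
  have hle : ldim t P ≤ maxLdim t n := by
    refine le_csSup ⟨Fintype.card (Fin n → Option (Fin t)), ?_⟩ ⟨P, rfl⟩
    rintro _ ⟨Q, rfl⟩
    exact Nat.sInf_le (hmem Q)
  obtain ⟨R, hR, hd⟩ := Nat.sInf_mem ⟨_, hmem P⟩
  exact ⟨R, hR, fun x => (hd x).trans hle⟩

theorem count_le {n t : ℕ} (ht : 2 ≤ t) (hn : 0 < n) :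
    2 ^ (n / 2 * (n - n / 2)) ≤ (n * t * 2) ^ (n * maxLdim t n) := by
  classical
  let A : Finset (Fin n) := univ.filter fun x => x.1 < n / 2
  let T : Finset (Fin n × Fin n) := A ×ˢ Aᶜ
  have hA : A.card = n / 2 := by
    simp only [A]
    rw [Fin.card_filter_val_lt]
    omega
  have hT : T.card = n / 2 * (n - n / 2) := by
    rw [card_product, card_compl, hA, Fintype.card_fin]
  let P : T.powerset → PartialOrder (Fin n) := fun S =>
    { le := fun x y => x = y ∨ (x, y) ∈ S.1
      lt := fun x y => (x = y ∨ (x, y) ∈ S.1) ∧ ¬ (y = x ∨ (y, x) ∈ S.1)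
      lt_iff_le_not_ge := fun _ _ => Iff.rfl
      le_refl := fun x => Or.inl rfl
      le_trans := by
        rintro x y z (rfl | h1) (rfl | h2)
        · exact Or.inl rfl
        · exact Or.inr h2
        · exact Or.inr h1
        · have a1 := mem_product.mp (mem_powerset.mp S.2 h1)
          have a2 := mem_product.mp (mem_powerset.mp S.2 h2)
          exact absurd a2.1 (mem_compl.mp a1.2)
      le_antisymm := by
        rintro x y (rfl | h1) h2
        · rfl
        · rcases h2 with h2 | h2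
          · exact h2.symm
          · have a1 := mem_product.mp (mem_powerset.mp S.2 h1)
            have a2 := mem_product.mp (mem_powerset.mp S.2 h2)
            exact absurd a2.1 (mem_compl.mp a1.2) }
  have hw : ∀ S : T.powerset, ∃ w : List.Vector ((Fin n × Fin t) × Bool) (n * maxLdim t n),
      ∀ x y, rel w.1 x y ↔ ¬ (P S).le y x := by
    intro S
    obtain ⟨R, hR, hd⟩ := exists_opt ht (P S)
    exact exists_word (⟨0, hn⟩, ⟨0, by omega⟩) (P S) R hR hd
  choose w hw using hw
  have hsub : ∀ S S' : T.powerset, w S = w S' → S.1 ⊆ S'.1 := by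
    rintro S S' h ⟨x, y⟩ hxy
    have a1 := mem_product.mp (mem_powerset.mp S.2 hxy)
    have h1 : (P S').le x y := by
      by_contra h2
      have := (hw S' y x).mpr h2
      rw [← h] at this
      exact (hw S y x).mp this (Or.inr hxy)
    rcases h1 with rfl | h1
    · exact absurd a1.1 (mem_compl.mp a1.2)
    · exact h1
  have hinj : Function.Injective w := fun S S' h =>
    Subtype.ext (Subset.antisymm (hsub S S' h) (hsub S' S h.symm))
  have := Fintype.card_le_of_injective w hinj
  rw [Fintype.card_coe, card_powerset, hT, card_vector] at this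
  simpa using this

theorem lower (t : ℕ) (ht : 2 ≤ t) (b : ℝ) (hb : b < 1 / 4) :
    ∀ᶠ n : ℕ in atTop, b < (maxLdim t n : ℝ) * Real.logb 2 n / n := by
  have htR : (2 : ℝ) ≤ t := by exact_mod_cast ht
  set c : ℝ := Real.logb 2 (t * 2) with hc
  have hc0 : 0 ≤ c := Real.logb_nonneg one_lt_two (by linarith)
  have hlog : Tendsto (fun n : ℕ => Real.logb 2 n) atTop atTop :=
    (Real.tendsto_logb_atTop one_lt_two).comp tendsto_natCast_atTop_atTop
  let v : ℕ → ℝ := fun n => (1 / 4 - 1 / 4 * (1 / n) ^ 2) * (1 - c / (Real.logb 2 n + c))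
  have hv : Tendsto v atTop (𝓝 ((1 / 4 - 1 / 4 * 0 ^ 2) * (1 - 0))) := by
    apply Tendsto.mul
    · exact tendsto_const_nhds.sub ((tendsto_one_div_atTop_nhds_zero_nat.pow 2).const_mul _)
    · exact tendsto_const_nhds.sub (tendsto_const_nhds.div_atTop (hlog.atTop_add tendsto_const_nhds))
  norm_num at hv
  filter_upwards [hv.eventually (lt_mem_nhds hb), eventually_ge_atTop 2] with n h1 h2
  refine lt_of_lt_of_le h1 ?_
  have hnR : (2 : ℝ) ≤ n := by exact_mod_cast h2
  have a1 := count_le (n := n) ht (by omega)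
  have a2 : ((n / 2 * (n - n / 2) : ℕ) : ℝ) ≤ n * maxLdim t n * (Real.logb 2 n + c) := by
    have h3 : ((2 : ℝ)) ^ (n / 2 * (n - n / 2)) ≤ ((n : ℝ) * (t * 2)) ^ (n * maxLdim t n) := by
      rw [← mul_assoc]
      exact_mod_cast a1
    have h4 := Real.logb_le_logb_of_le one_lt_two (by positivity) h3
    rw [Real.logb_pow, Real.logb_pow, Real.logb_self_eq_one one_lt_two, mul_one,
      Real.logb_mul (by positivity) (by positivity), ← hc, Nat.cast_mul n] at h4
    exact h4
  have a3 : (n : ℝ) ^ 2 - 1 ≤ 4 * ((n / 2 * (n - n / 2) : ℕ) : ℝ) := by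
    have : n ^ 2 ≤ 4 * (n / 2 * (n - n / 2)) + 1 := by
      rcases Nat.even_or_odd' n with ⟨k, rfl | rfl⟩
      · have e1 : 2 * k / 2 = k := by omega
        have e2 : 2 * k - k = k := by omega
        rw [e1, e2]; nlinarith
      · have e1 : (2 * k + 1) / 2 = k := by omega
        have e2 : 2 * k + 1 - k = k + 1 := by omega
        rw [e1, e2]; nlinarith
    have h5 : ((n ^ 2 : ℕ) : ℝ) ≤ ((4 * (n / 2 * (n - n / 2)) + 1 : ℕ) : ℝ) := by exact_mod_cast this
    rw [Nat.cast_add, Nat.cast_mul 4, Nat.cast_pow] at h5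
    push_cast at h5 ⊢
    linarith
  have a4 : 0 < Real.logb 2 n := Real.logb_pos one_lt_two (by linarith)
  have e1 : v n = ((n : ℝ) ^ 2 - 1) / 4 / (n * (Real.logb 2 n + c)) * Real.logb 2 n / n := by
    simp only [v]
    field_simp
    ring
  rw [e1]
  gcongr
  rw [div_le_iff₀ (by positivity)]
  nlinarith

theorem asymp (t : ℕ) (ht : 2 ≤ t) :
    Tendsto (fun n : ℕ => (maxLdim t n : ℝ) * Real.logb 2 n / n) atTop (𝓝 (1 / 4)) :=
  tendsto_order.mpr ⟨lower t ht, upper t ht⟩

end Pool.Agent.MP_bb6eef_co.H88
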