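import Mathlib

set_option autoImplicit false

open Finset

namespace Pool.Agent.MP_bb6eef_co.H88

/-- Mantel's theorem for an acyclic relation without transitive triangles. -/
theorem mantel {β : Type} [DecidableEq β] (E : β → β → Prop) [DecidableRel E] (rk : β → ℕ)
    (hrk : ∀ u v, E u v → rk v < rk u) (htri : ∀ u v w, E u v → E v w → E u w → False)
    (S : Finset β) : 4 * ((S ×ˢ S).filter fun p => E p.1 p.2).card ≤ S.card ^ 2 := by
  rcases S.eq_empty_or_nonempty with rfl | hS
  · simp
  let nb : β → Finset β := fun u => S.filter fun w => E u w ∨ E w u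
  obtain ⟨v, hv, hmax⟩ := exists_max_image S (fun u => (nb u).card) hS
  have hA : nb v ⊆ S := filter_subset _ _
  have hind : ∀ a ∈ nb v, ∀ b ∈ nb v, ¬ E a b := by
    intro a ha b hb hab
    rcases (mem_filter.mp ha).2 with h1 | h1 <;> rcases (mem_filter.mp hb).2 with h2 | h2
    · exact htri _ _ _ h1 hab h2
    · have := hrk _ _ h1; have := hrk _ _ h2; have := hrk _ _ hab; omega
    · exact htri _ _ _ h1 h2 hab
    · exact htri _ _ _ hab h2 h1
  have h1 : ((S ×ˢ S).filter fun p => E p.1 p.2).card ≤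
      ((S \ nb v).biUnion fun u => (nb u).image fun w => (u, w)).card := by
    apply card_le_card_of_injOn (fun p => if p.1 ∈ nb v then (p.2, p.1) else p)
    · rintro ⟨a, b⟩ hp
      simp only [coe_filter, mem_product, Set.mem_ofPred_eq] at hp
      obtain ⟨⟨ha, hb⟩, hab⟩ := hp
      simp only [coe_biUnion, coe_sdiff, Set.mem_iUnion, mem_coe, mem_image]
      by_cases h : a ∈ nb v
      · rw [if_pos h]
        exact ⟨b, ⟨hb, fun h' => hind a h b h' hab⟩, a, mem_filter.mpr ⟨ha, Or.inr hab⟩, rfl⟩
      · rw [if_neg h]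
        exact ⟨a, ⟨ha, h⟩, b, mem_filter.mpr ⟨hb, Or.inl hab⟩, rfl⟩
    · rintro ⟨a, b⟩ hp ⟨c, d⟩ hq h
      simp only [coe_filter, mem_product, Set.mem_ofPred_eq] at hp hq
      by_cases h1 : a ∈ nb v <;> by_cases h2 : c ∈ nb v <;>
        simp only [h1, h2, if_true, if_false, Prod.mk.injEq] at h
      · rw [h.1, h.2]
      · obtain ⟨rfl, rfl⟩ := h
        have := hrk _ _ hp.2; have := hrk _ _ hq.2; omega
      · obtain ⟨rfl, rfl⟩ := h
        have := hrk _ _ hp.2; have := hrk _ _ hq.2; omega
      · rw [h.1, h.2]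
  have h2 : ((S \ nb v).biUnion fun u => (nb u).image fun w => (u, w)).card ≤
      (S \ nb v).card * (nb v).card := by
    apply card_biUnion_le_card_mul
    intro u hu
    exact card_image_le.trans (hmax u (mem_sdiff.mp hu).1)
  have h3 : (S \ nb v).card + (nb v).card = S.card := card_sdiff_add_card_eq_card hA
  rw [← h3]
  nlinarith [sq_nonneg (((S \ nb v).card : ℤ) - (nb v).card), h1.trans h2]

/-- Balanced orientation: every vertex is responsible for at most a quarter of the vertices. -/
theorem orient {β : Type} [DecidableEq β] (E : β → β → Prop) [DecidableRel E] (rk : β → ℕ)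
    (hrk : ∀ u v, E u v → rk v < rk u) (htri : ∀ u v w, E u v → E v w → E u w → False)
    (Lab : Finset β) :
    ∃ o : β → β → Bool, ∀ v,
      (Lab.filter fun q => v ∈ Lab ∧ E v q ∧ o v q = true).card +
        (Lab.filter fun q => v ∈ Lab ∧ E q v ∧ o q v = false).card ≤ Lab.card / 4 + 1 := by
  classical
  set Dg := Lab.card / 4 + 1 with hDg
  let Ed := (Lab ×ˢ Lab).filter fun p => E p.1 p.2
  let t : Ed → Finset (β × ℕ) := fun e => ({e.1.1, e.1.2} : Finset β) ×ˢ range Dg
  have hall : ∀ s : Finset Ed, s.card ≤ (s.biUnion t).card := by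
    intro s
    let S : Finset β := s.biUnion fun e => {e.1.1, e.1.2}
    have hS : S ⊆ Lab := by
      intro x hx
      obtain ⟨e, -, he⟩ := mem_biUnion.mp hx
      have := mem_product.mp (mem_filter.mp e.2).1
      rcases mem_insert.mp he with rfl | he
      · exact this.1
      · rw [mem_singleton.mp he]; exact this.2
    have h1 : s.biUnion t = S ×ˢ range Dg := by
      ext ⟨x, i⟩
      simp only [t, S, mem_biUnion, mem_product]
      constructor
      · rintro ⟨e, he, h1, h2⟩; exact ⟨⟨e, he, h1⟩, h2⟩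
      · rintro ⟨⟨e, he, h1⟩, h2⟩; exact ⟨e, he, h1, h2⟩
    have h2 : s.card ≤ ((S ×ˢ S).filter fun p => E p.1 p.2).card := by
      apply card_le_card_of_injOn (fun e => e.1)
      · intro e he
        simp only [coe_filter, mem_product, Set.mem_ofPred_eq]
        refine ⟨⟨mem_biUnion.mpr ⟨e, he, by simp⟩, mem_biUnion.mpr ⟨e, he, by simp⟩⟩, ?_⟩
        exact (mem_filter.mp e.2).2
      · intro a _ b _ h
        exact Subtype.ext h
    have h3 := mantel E rk hrk htri S
    have h4 := card_le_card hS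
    rw [h1, card_product, card_range]
    have h5 : S.card ≤ 4 * Dg := by omega
    nlinarith
  obtain ⟨f, hinj, hf⟩ := (all_card_le_biUnion_card_iff_exists_injective t).mp hall
  refine ⟨fun u v => if h : (u, v) ∈ Ed then decide ((f ⟨(u, v), h⟩).1 = u) else true, fun v => ?_⟩
  have hEd1 : ∀ q, q ∈ Lab → v ∈ Lab → E v q → (v, q) ∈ Ed := fun q hq hv h =>
    mem_filter.mpr ⟨mem_product.mpr ⟨hv, hq⟩, h⟩
  have hEd2 : ∀ q, q ∈ Lab → v ∈ Lab → E q v → (q, v) ∈ Ed := fun q hq hv h =>
    mem_filter.mpr ⟨mem_product.mpr ⟨hq, hv⟩, h⟩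
  let A : Finset Ed := univ.filter fun e => (f e).1 = v
  have hA : A.card ≤ Dg := by
    rw [← card_range Dg]
    apply card_le_card_of_injOn (fun e => (f e).2)
    · intro e _
      exact (mem_product.mp (hf e)).2
    · intro a ha b hb h
      apply hinj
      have ha' := (mem_filter.mp ha).2
      have hb' := (mem_filter.mp hb).2
      exact Prod.ext (ha'.trans hb'.symm) h
  refine le_trans ?_ hA
  rw [← card_image_of_injective A Subtype.val_injective,
    ← card_image_of_injective (Lab.filter fun q => v ∈ Lab ∧ E v q ∧ _) (Prod.mk_right_injective v),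
    ← card_image_of_injective (Lab.filter fun q => v ∈ Lab ∧ E q v ∧ _) (Prod.mk_left_injective v),
    ← card_union_of_disjoint]
  · apply card_le_card
    intro p hp
    rcases mem_union.mp hp with hp | hp
    · obtain ⟨q, hq, rfl⟩ := mem_image.mp hp
      obtain ⟨hq1, hv, hE, ho⟩ := mem_filter.mp hq
      have hm := hEd1 q hq1 hv hE
      simp only [dif_pos hm, decide_eq_true_iff] at ho
      exact mem_image.mpr ⟨⟨_, hm⟩, mem_filter.mpr ⟨mem_univ _, ho⟩, rfl⟩
    · obtain ⟨q, hq, rfl⟩ := mem_image.mp hp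
      obtain ⟨hq1, hv, hE, ho⟩ := mem_filter.mp hq
      have hm := hEd2 q hq1 hv hE
      simp only [dif_pos hm, decide_eq_false_iff_not] at ho
      refine mem_image.mpr ⟨⟨_, hm⟩, mem_filter.mpr ⟨mem_univ _, ?_⟩, rfl⟩
      have := (mem_product.mp (hf ⟨_, hm⟩)).1
      rcases mem_insert.mp this with h | h
      · exact absurd h ho
      · exact mem_singleton.mp h
  · rw [disjoint_left]
    intro p hp1 hp2
    obtain ⟨q, hq, rfl⟩ := mem_image.mp hp1
    obtain ⟨q', hq', h⟩ := mem_image.mp hp2
    obtain ⟨rfl, rfl⟩ := Prod.mk.inj h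
    have := hrk _ _ (mem_filter.mp hq).2.2.1
    omega

end Pool.Agent.MP_bb6eef_co.H88
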