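import Pool.Agent.MP_bb6eef_co.H88.Cover

set_option autoImplicit false

open Finset

namespace Pool.Agent.MP_bb6eef_co.H88

theorem compl_uniform {α : Type} [DecidableEq α] (G : SimpleGraph α) [DecidableRel G.Adj]
    {ε : ℝ} {s t : Finset α} (hst : Disjoint s t) (hs : s.Nonempty) (ht : t.Nonempty)
    (h : G.IsUniform ε s t) : Gᶜ.IsUniform ε s t := by
  intro s' hs' t' ht' h1 h2
  have hε := h.pos
  have hs0 : s'.Nonempty := by
    rw [← card_pos, ← Nat.cast_pos (α := ℝ)]
    exact lt_of_lt_of_le (mul_pos (by exact_mod_cast hs.card_pos) hε) h1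
  have ht0 : t'.Nonempty := by
    rw [← card_pos, ← Nat.cast_pos (α := ℝ)]
    exact lt_of_lt_of_le (mul_pos (by exact_mod_cast ht.card_pos) hε) h2
  have e1 := G.edgeDensity_add_edgeDensity_compl hs ht hst
  have e2 := G.edgeDensity_add_edgeDensity_compl hs0 ht0 (hst.mono hs' ht')
  have e1' : (G.edgeDensity s t : ℝ) + Gᶜ.edgeDensity s t = 1 := by exact_mod_cast e1
  have e2' : (G.edgeDensity s' t' : ℝ) + Gᶜ.edgeDensity s' t' = 1 := by exact_mod_cast e2
  have := h hs' ht' h1 h2
  rw [abs_lt] at this ⊢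
  constructor <;> linarith [this.1, this.2]

theorem typical {α : Type} [DecidableEq α] (G : SimpleGraph α) [DecidableRel G.Adj]
    {ε δ : ℝ} {s t U W : Finset α} (hs : s.Nonempty) (ht : t.Nonempty)
    (h : G.IsUniform ε s t) (hd : δ ≤ G.edgeDensity s t) (hU : U ⊆ s) (hW : W ⊆ t)
    (hW1 : t.card * ε ≤ W.card) (hW2 : t.card * ε ≤ (δ - ε) * W.card) :
    ((U.filter fun x => ((W.filter fun y => G.Adj x y).card : ℝ) < t.card * ε).card : ℝ) <
      s.card * ε := by
  by_contra hcon
  rw [not_lt] at hcon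
  set X := U.filter fun x => ((W.filter fun y => G.Adj x y).card : ℝ) < t.card * ε with hX
  have hε := h.pos
  have hX0 : (0 : ℝ) < X.card := lt_of_lt_of_le (mul_pos (by exact_mod_cast hs.card_pos) hε) hcon
  have hW0 : (0 : ℝ) < W.card := lt_of_lt_of_le (mul_pos (by exact_mod_cast ht.card_pos) hε) hW1
  have h1 := (abs_lt.mp (h ((filter_subset _ _).trans hU) hW hcon hW1)).1
  have h2 : ((G.interedges X W).card : ℝ) ≤ X.card * (t.card * ε) := by
    have : G.interedges X W ⊆ X.biUnion fun x => (W.filter fun y => G.Adj x y).image fun y => (x, y) := by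
      rintro ⟨x, y⟩ hp
      rw [SimpleGraph.mk_mem_interedges_iff] at hp
      exact mem_biUnion.mpr ⟨x, hp.1, mem_image.mpr ⟨y, mem_filter.mpr ⟨hp.2.1, hp.2.2⟩, rfl⟩⟩
    calc ((G.interedges X W).card : ℝ)
        ≤ ∑ x ∈ X, ((W.filter fun y => G.Adj x y).card : ℝ) := by
          exact_mod_cast (card_le_card this).trans
            (card_biUnion_le.trans (sum_le_sum fun x _ => card_image_le))
      _ ≤ ∑ x ∈ X, t.card * ε := sum_le_sum fun x hx => (mem_filter.mp hx).2.le
      _ = _ := by rw [sum_const, nsmul_eq_mul]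
  have h3 : (G.edgeDensity X W : ℝ) ≤ δ - ε := by
    rw [G.edgeDensity_def]
    push_cast
    rw [div_le_iff₀ (by positivity)]
    nlinarith
  linarith

theorem exists_pos {α : Type} [Fintype α] (le : α → α → Prop) [IsPartialOrder α le] :
    ∃ pos : α → ℕ, Function.Injective pos ∧ (∀ x, pos x ≤ Fintype.card α) ∧
      ∀ x y, le x y → pos x ≤ pos y := by
  classical
  obtain ⟨s, hs, hle⟩ := extend_partialOrder le
  have hmono : ∀ x y, s x y → (univ.filter fun z => s z x) ⊆ univ.filter fun z => s z y :=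
    fun x y h z hz => mem_filter.mpr ⟨mem_univ _, hs.trans _ _ _ (mem_filter.mp hz).2 h⟩
  have hinj : ∀ x y, s x y → (univ.filter fun z => s z x).card = (univ.filter fun z => s z y).card →
      x = y := by
    intro x y h hc
    have e := eq_of_subset_of_card_le (hmono x y h) hc.ge
    have : y ∈ univ.filter fun z => s z x := by
      rw [e]; exact mem_filter.mpr ⟨mem_univ _, hs.refl y⟩
    exact hs.antisymm _ _ h (mem_filter.mp this).2
  refine ⟨fun x => (univ.filter fun z => s z x).card, ?_, fun x => card_le_univ _,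
    fun x y h => card_le_card (hmono x y (hle x y h))⟩
  intro x y h
  rcases hs.total x y with h1 | h1
  · exact hinj x y h1 h
  · exact (hinj y x h1 h.symm).symm

theorem card_union7 {β : Type} [DecidableEq β] (a b c d e f g : Finset β) :
    (a ∪ b ∪ c ∪ d ∪ e ∪ f ∪ g).card ≤
      a.card + b.card + c.card + d.card + e.card + f.card + g.card := by
  have := card_union_le (a ∪ b ∪ c ∪ d ∪ e ∪ f) g
  have := card_union_le (a ∪ b ∪ c ∪ d ∪ e) f
  have := card_union_le (a ∪ b ∪ c ∪ d) e
  have := card_union_le (a ∪ b ∪ c) d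
  have := card_union_le (a ∪ b) c
  have := card_union_le a b
  omega

open Classical in
theorem structure_lemma (γ : ℝ) (hγ : 0 < γ) :
    ∃ K0 n0 : ℕ, ∀ (α : Type) [Fintype α] [DecidableEq α] (le : α → α → Prop)
      [IsPartialOrder α le], n0 ≤ Fintype.card α →
      ∃ (κ : Type) (_ : Fintype κ) (cls : α → κ) (E Full : κ → κ → Prop) (rk : κ → ℕ),
        Fintype.card κ ≤ K0 ∧ (∀ u v, E u v → rk v < rk u) ∧
        (∀ u v w, E u v → E v w → E u w → False) ∧
        ((univ.filter fun p : α × α => ¬ E (cls p.1) (cls p.2) ∧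
          ¬ (Full (cls p.1) (cls p.2) ↔ ¬ le p.2 p.1)).card : ℝ) ≤
          γ ^ 2 * (Fintype.card α : ℝ) ^ 2 := by
  obtain ⟨ρ, hρ0, hρ1, hργ⟩ : ∃ ρ : ℝ, 0 < ρ ∧ ρ ≤ 1 ∧ 20 * ρ ≤ γ ^ 2 :=
    ⟨min (γ ^ 2 / 20) 1, by positivity, min_le_right _ _, by
      have := min_le_left (γ ^ 2 / 20) 1; linarith⟩
  obtain ⟨K, hK⟩ := exists_nat_ge (4 / ρ)
  have hK0 : (0 : ℝ) < K := lt_of_lt_of_le (by positivity) hK
  have hKρ : 4 ≤ K * ρ := by rwa [div_le_iff₀ hρ0] at hK
  set η : ℝ := ρ / (K + 1) with hη
  have hη0 : 0 < η := by positivity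
  have hη1 : η ≤ ρ := by rw [hη]; exact div_le_self hρ0.le (by linarith)
  set ε : ℝ := η * ρ / 2 with hε
  have hε0 : 0 < ε := by positivity
  have hεη : 2 * ε ≤ η := by rw [hε]; nlinarith
  have hερ : 2 * ε ≤ ρ := hεη.trans hη1
  refine ⟨SzemerediRegularity.bound ε K * (K + 1), K, ?_⟩
  intro α _ _ le hle hn
  set n := Fintype.card α with hn'
  have hnR : (K : ℝ) ≤ n := by exact_mod_cast hn
  have hn0 : (0 : ℝ) < n := lt_of_lt_of_le hK0 hnR
  obtain ⟨pos, hpinj, hple, hpmono⟩ := exists_pos le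
  let G : SimpleGraph α := SimpleGraph.fromRel le
  have hG : ∀ x y, G.Adj x y ↔ x ≠ y ∧ (le x y ∨ le y x) := fun x y => SimpleGraph.fromRel_adj ..
  obtain ⟨P, hPeq, hPl, hPb, hPu⟩ := szemeredi_regularity G hε0 hn
  let w := n / K + 1
  have hw0 : 0 < w := Nat.succ_pos _
  have hint : ∀ x, pos x / w < K + 1 := by
    intro x
    have hK' : 0 < K := by exact_mod_cast hK0
    rw [Nat.lt_succ_iff, Nat.div_le_iff_le_mul_add_pred hw0]
    have h1 := hple x
    have h2 : n < K * w := Nat.lt_mul_div_succ n hK'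
    have h3 : w * K = K * w := mul_comm _ _
    omega
  let κ := P.parts × Fin (K + 1)
  let cls : α → κ := fun x => (⟨P.part x, P.part_mem.mpr (mem_univ x)⟩, ⟨pos x / w, hint x⟩)
  let atom : κ → Finset α := fun c => univ.filter fun y => cls y = c
  have hatom : ∀ c, atom c ⊆ c.1.1 := by
    intro c y hy
    rw [← (mem_filter.mp hy).2]
    exact P.mem_part (mem_univ y)
  let large : κ → Prop := fun c => η * c.1.1.card ≤ (atom c).card
  let E : κ → κ → Prop := fun c c' => c'.2.1 < c.2.1 ∧ large c ∧ large c' ∧ c.1.1 ≠ c'.1.1 ∧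
    G.IsUniform ε c.1.1 c'.1.1 ∧ ρ ≤ G.edgeDensity c.1.1 c'.1.1 ∧ ρ ≤ Gᶜ.edgeDensity c.1.1 c'.1.1
  let Full : κ → κ → Prop := fun c c' => c.2.1 < c'.2.1 ∨ (G.edgeDensity c.1.1 c'.1.1 : ℝ) < ρ
  have hdir : ∀ x y, pos y / w < pos x / w → (G.Adj x y ↔ le y x) := by
    intro x y h
    rw [hG]
    constructor
    · rintro ⟨-, h1 | h1⟩
      · have := Nat.div_le_div_right (c := w) (hpmono x y h1)
        omega
      · exact h1
    · intro h1
      refine ⟨?_, Or.inr h1⟩
      rintro rfl
      omega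
  refine ⟨κ, inferInstance, cls, E, Full, fun c => c.2.1, ?_, fun u v h => h.1, ?_, ?_⟩
  · simp only [κ, Fintype.card_prod, Fintype.card_coe, Fintype.card_fin]
    exact Nat.mul_le_mul_right _ hPb
  · rintro c1 c2 c3 ⟨h12, l1, l2, -, u12, d12, -⟩ ⟨h23, -, l3, -, u23, d23, -⟩
      ⟨h13, -, -, n13, u13, -, d13⟩
    have ne1 := P.nonempty_of_mem_parts c1.1.2
    have ne2 := P.nonempty_of_mem_parts c2.1.2
    have ne3 := P.nonempty_of_mem_parts c3.1.2
    have hl : ∀ c, large c → c.1.1.card * ε ≤ (atom c).card ∧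
        c.1.1.card * ε ≤ (ρ - ε) * (atom c).card := by
      intro c hc
      have h0 : (0 : ℝ) ≤ c.1.1.card := by positivity
      have hc' : η * c.1.1.card ≤ (atom c).card := hc
      constructor
      · nlinarith
      · have : (ρ - ε) * (η * c.1.1.card) ≤ (ρ - ε) * (atom c).card :=
          mul_le_mul_of_nonneg_left hc' (by linarith)
        have h2 : ε ≤ (ρ - ε) * η := by rw [hε]; nlinarith
        nlinarith
    have t1 := typical G ne1 ne2 u12 d12 (hatom c1) (hatom c2) (hl c2 l2).1 (hl c2 l2).2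
    have t2 := typical Gᶜ ne1 ne3
      (compl_uniform G (P.disjoint c1.1.2 c3.1.2 n13) ne1 ne3 u13) d13 (hatom c1) (hatom c3)
      (hl c3 l3).1 (hl c3 l3).2
    obtain ⟨x, hx, hx'⟩ : ∃ x ∈ atom c1, x ∉ ((atom c1).filter fun x =>
        (((atom c2).filter fun y => G.Adj x y).card : ℝ) < c2.1.1.card * ε) ∪
        ((atom c1).filter fun x =>
        (((atom c3).filter fun y => Gᶜ.Adj x y).card : ℝ) < c3.1.1.card * ε) := by
      apply exists_mem_notMem_of_card_lt_card
      rw [← Nat.cast_lt (α := ℝ)]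
      refine lt_of_le_of_lt (Nat.cast_le.mpr (card_union_le _ _)) ?_
      push_cast
      have l1' : η * c1.1.1.card ≤ (atom c1).card := l1
      have h0 : (0 : ℝ) ≤ c1.1.1.card := by positivity
      nlinarith
    rw [mem_union, not_or] at hx'
    have a1 := not_lt.mp fun h => hx'.1 (mem_filter.mpr ⟨hx, h⟩)
    have a2 := not_lt.mp fun h => hx'.2 (mem_filter.mpr ⟨hx, h⟩)
    have a3 := (abs_lt.mp (u23 ((filter_subset _ _).trans (hatom c2))
      ((filter_subset _ _).trans (hatom c3)) a1 a2)).1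
    have a4 : (0 : ℝ) < G.edgeDensity ((atom c2).filter fun y => G.Adj x y)
        ((atom c3).filter fun y => Gᶜ.Adj x y) := by linarith
    obtain ⟨⟨y, z⟩, hyz⟩ : (G.interedges ((atom c2).filter fun y => G.Adj x y)
        ((atom c3).filter fun y => Gᶜ.Adj x y)).Nonempty := by
      rw [← card_pos]
      by_contra h
      rw [G.edgeDensity_def, Nat.eq_zero_of_not_pos h] at a4
      simp at a4
    rw [SimpleGraph.mk_mem_interedges_iff] at hyz
    obtain ⟨hy', hz', hyz⟩ := hyz
    obtain ⟨hy, hxy⟩ := mem_filter.mp hy'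
    obtain ⟨hz, hxz⟩ := mem_filter.mp hz'
    have ex : pos x / w = c1.2.1 := congrArg (fun c : κ => c.2.1) (mem_filter.mp hx).2
    have ey : pos y / w = c2.2.1 := congrArg (fun c : κ => c.2.1) (mem_filter.mp hy).2
    have ez : pos z / w = c3.2.1 := congrArg (fun c : κ => c.2.1) (mem_filter.mp hz).2
    have b1 := (hdir x y (by omega)).mp hxy
    have b2 := (hdir y z (by omega)).mp hyz
    exact ((SimpleGraph.compl_adj _ _ _).mp hxz).2 ((hdir x z (by omega)).mpr (hle.trans _ _ _ b2 b1))
  · let S1 : Finset (α × α) := univ.filter fun p => pos p.1 / w = pos p.2 / w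
    let Sm : Finset α := univ.filter fun x => ¬ large (cls x)
    have hsub : ∀ p : α × α, (¬ E (cls p.1) (cls p.2) ∧
          ¬ (Full (cls p.1) (cls p.2) ↔ ¬ le p.2 p.1)) → p ∈
        S1 ∪ Sm ×ˢ univ ∪ univ ×ˢ Sm ∪ P.parts.biUnion offDiag ∪
        ((P.nonUniforms G ε).biUnion fun (U, V) => U ×ˢ V) ∪
        ((P.sparsePairs G ρ).biUnion fun (U, V) => G.interedges U V) ∪
        ((P.sparsePairs Gᶜ ρ).biUnion fun (U, V) => Gᶜ.interedges U V) := by
      rintro ⟨x, y⟩ ⟨hE, hF⟩
      simp only at hE hF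
      simp only [mem_union]
      have px := P.part_mem.mpr (mem_univ x)
      have py := P.part_mem.mpr (mem_univ y)
      have mx := P.mem_part (mem_univ x)
      have my := P.mem_part (mem_univ y)
      rcases lt_trichotomy (pos x / w) (pos y / w) with h | h | h
      · exfalso
        apply hF
        refine ⟨fun _ h1 => ?_, fun _ => Or.inl h⟩
        have := Nat.div_le_div_right (c := w) (hpmono y x h1)
        omega
      · exact Or.inl (Or.inl (Or.inl (Or.inl (Or.inl (Or.inl (mem_filter.mpr ⟨mem_univ _, h⟩))))))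
      · have hxy : x ≠ y := by rintro rfl; omega
        by_cases lx : large (cls x)
        swap
        · exact Or.inl (Or.inl (Or.inl (Or.inl (Or.inl (Or.inr
            (mem_product.mpr ⟨mem_filter.mpr ⟨mem_univ _, lx⟩, mem_univ _⟩))))))
        by_cases ly : large (cls y)
        swap
        · exact Or.inl (Or.inl (Or.inl (Or.inl (Or.inr
            (mem_product.mpr ⟨mem_univ _, mem_filter.mpr ⟨mem_univ _, ly⟩⟩)))))
        by_cases hp : P.part x = P.part y
        · exact Or.inl (Or.inl (Or.inl (Or.inr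
            (mem_biUnion.mpr ⟨P.part x, px, mem_offDiag.mpr ⟨mx, hp ▸ my, hxy⟩⟩))))
        by_cases hu : G.IsUniform ε (P.part x) (P.part y)
        swap
        · exact Or.inl (Or.inl (Or.inr (mem_biUnion.mpr ⟨(P.part x, P.part y),
            (P.mk_mem_nonUniforms G).mpr ⟨px, py, hp, hu⟩, mem_product.mpr ⟨mx, my⟩⟩)))
        by_cases hd : (G.edgeDensity (P.part x) (P.part y) : ℝ) < ρ
        · refine Or.inl (Or.inr (mem_biUnion.mpr ⟨(P.part x, P.part y),
            (P.mk_mem_sparsePairs G _ _ _).mpr ⟨px, py, hp, hd⟩, ?_⟩))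
          rw [SimpleGraph.mk_mem_interedges_iff]
          refine ⟨mx, my, (hdir x y h).mpr ?_⟩
          by_contra h1
          exact hF ⟨fun _ => h1, fun _ => Or.inr hd⟩
        · have hd2 : (Gᶜ.edgeDensity (P.part x) (P.part y) : ℝ) < ρ := by
            by_contra h2
            exact hE ⟨h, lx, ly, hp, hu, not_lt.mp hd, not_lt.mp h2⟩
          refine Or.inr (mem_biUnion.mpr ⟨(P.part x, P.part y),
            (P.mk_mem_sparsePairs Gᶜ _ _ _).mpr ⟨px, py, hp, hd2⟩, ?_⟩)
          rw [SimpleGraph.mk_mem_interedges_iff]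
          refine ⟨mx, my, (SimpleGraph.compl_adj _ _ _).mpr ⟨hxy, fun h1 => ?_⟩⟩
          apply hF
          refine ⟨fun h3 => ?_, fun h3 => absurd ((hdir x y h).mp h1) h3⟩
          rcases h3 with h3 | h3
          · exact absurd h3 (not_lt.mpr h.le)
          · exact absurd h3 hd
    have c1 : (S1.card : ℝ) ≤ ρ * n ^ 2 := by
      have h1 : S1 ⊆ univ.biUnion fun x : α =>
          (blk (fun _ : α => ()) pos w ((), pos x / w)).image fun y => (x, y) := by
        rintro ⟨x, y⟩ hp
        refine mem_biUnion.mpr ⟨x, mem_univ _, mem_image.mpr ⟨y, (mem_blk _ _).mpr ?_, rfl⟩⟩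
        have h2 : pos x / w = pos y / w := (mem_filter.mp hp).2
        rw [lab, h2]
      have h2 : S1.card ≤ n * w := (card_le_card h1).trans (card_biUnion_le_card_mul _ _ _
        fun x _ => card_image_le.trans (card_blk _ _ (fun x y _ h => hpinj h) hw0 _))
      have h3 : (w : ℝ) ≤ n / K + 1 := by
        simp only [w]
        push_cast
        linarith [Nat.cast_div_le (α := ℝ) (m := n) (n := K)]
      have h4 : (n : ℝ) / K ≤ ρ * n / 4 := by
        rw [div_le_iff₀ hK0]
        nlinarith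
      have h5 : 1 ≤ ρ * n / 4 := by nlinarith
      have h6 : (S1.card : ℝ) ≤ n * w := by exact_mod_cast h2
      nlinarith
    have c2 : (Sm.card : ℝ) ≤ ρ * n := by
      have e : Sm.card = ∑ c : κ, (Sm.filter fun x => cls x = c).card :=
        card_eq_sum_card_fiberwise fun y _ => mem_coe.mpr (mem_univ _)
      have h1 : ∀ c : κ, ((Sm.filter fun x => cls x = c).card : ℝ) ≤ η * c.1.1.card := by
        intro c
        by_cases hc : large c
        · have : (Sm.filter fun x => cls x = c) = ∅ := by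
            rw [filter_eq_empty_iff]
            intro x hx h
            exact (mem_filter.mp hx).2 (h ▸ hc)
          rw [this, card_empty, Nat.cast_zero]
          positivity
        · refine le_trans ?_ (not_le.mp hc).le
          have : (Sm.filter fun x => cls x = c) ⊆ atom c :=
            fun x hx => mem_filter.mpr ⟨mem_univ _, (mem_filter.mp hx).2⟩
          exact_mod_cast card_le_card this
      have h2 : ∑ c : κ, (c.1.1.card : ℝ) = n * (K + 1) := by
        rw [Fintype.sum_prod_type]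
        simp only [sum_const, card_univ, Fintype.card_fin, nsmul_eq_mul]
        rw [← mul_sum, sum_coe_sort P.parts fun U => (U.card : ℝ), ← Nat.cast_sum, P.sum_card_parts,
          card_univ]
        push_cast
        ring
      rw [e, Nat.cast_sum]
      refine (sum_le_sum fun c _ => h1 c).trans ?_
      rw [← mul_sum, h2, hη]
      apply le_of_eq
      field_simp
    have c3 := hPeq.card_biUnion_offDiag_le hρ0 (hK.trans (by exact_mod_cast hPl))
    have hne : (univ : Finset α).Nonempty := by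
      rw [← card_pos, card_univ]
      exact_mod_cast hn0
    have c4 := hPeq.sum_nonUniforms_lt hne hε0 hPu
    have c5 := hPeq.card_interedges_sparsePairs_le (G := G) hρ0.le
    have c6 := hPeq.card_interedges_sparsePairs_le (G := Gᶜ) hρ0.le
    rw [card_univ, ← hn'] at c3 c4 c5 c6
    refine le_trans (Nat.cast_le.mpr ((card_le_card fun p hp => hsub p
      (by simpa only [mem_filter, mem_univ, true_and] using hp)).trans
      (card_union7 _ _ _ _ _ _ _))) ?_
    rw [card_product, card_product, card_univ, ← hn']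
    push_cast
    have hn2 : (0 : ℝ) < n ^ 2 := by positivity
    nlinarith [mul_le_mul_of_nonneg_right c2 hn0.le]

end Pool.Agent.MP_bb6eef_co.H88
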