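import Pool.Agent.MP_bb6eef_co.H88.Defs
import Pool.Agent.MP_bb6eef_co.H88.CoverMain
import Pool.Agent.MP_bb6eef_co.H88.Structure

set_option autoImplicit false

open Finset Filter Topology

namespace Pool.Agent.MP_bb6eef_co.H88

theorem real_of_bicl {n t : ℕ} (ht : 2 ≤ t) (P : PartialOrder (Fin n))
    (ℬ : Finset (Finset (Fin n) × Finset (Fin n)))
    (h1 : ∀ p ∈ ℬ, ∀ x ∈ p.1, ∀ y ∈ p.2, ¬ P.le y x)
    (h2 : ∀ x y, ¬ P.le y x → ∃ p ∈ ℬ, x ∈ p.1 ∧ y ∈ p.2) :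
    ∃ R : Finset (Fin n → Option (Fin t)), IsRealiser P R ∧
      ∀ x, (R.filter fun f => f x ≠ none).card ≤ (ℬ.filter fun p => x ∈ p.1 ∨ x ∈ p.2).card := by
  let g : Finset (Fin n) × Finset (Fin n) → Fin n → Option (Fin t) := fun p x =>
    if x ∈ p.1 then some ⟨0, by omega⟩ else if x ∈ p.2 then some ⟨1, by omega⟩ else none
  refine ⟨ℬ.image g, ⟨?_, ?_⟩, ?_⟩
  · intro f hf
    obtain ⟨p, hp, rfl⟩ := mem_image.mp hf
    intro x y a b ha hb hxy
    simp only [g] at ha hb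
    split_ifs at ha hb with c1 c2 c3 c4 c5 c6 <;>
      simp only [Option.some.injEq] at ha hb <;> subst ha hb
    · exact le_rfl
    · exact Fin.mk_le_mk.mpr (by norm_num)
    · exact absurd hxy (h1 p hp y c5 x c4)
    · exact le_rfl
  · intro x y hxy
    obtain ⟨p, hp, hx, hy⟩ := h2 x y hxy
    have hy' : y ∉ p.1 := fun h => h1 p hp y h y hy (P.le_refl y)
    refine ⟨g p, mem_image_of_mem _ hp, ⟨0, by omega⟩, ⟨1, by omega⟩, ?_, ?_,
      Fin.mk_lt_mk.mpr (by norm_num)⟩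
    · simp only [g, if_pos hx]
    · simp only [g, if_neg hy', if_pos hy]
  · intro x
    refine le_trans (card_le_card ?_) (card_image_le (f := g))
    intro f hf
    obtain ⟨hf, hx⟩ := mem_filter.mp hf
    obtain ⟨p, hp, rfl⟩ := mem_image.mp hf
    refine mem_image_of_mem _ (mem_filter.mpr ⟨hp, ?_⟩)
    by_contra h
    rw [not_or] at h
    exact hx (by simp only [g, if_neg h.1, if_neg h.2])

theorem three_sq_le (j : ℕ) (hj : 8 ≤ j) : 3 * j ^ 2 ≤ 2 ^ j := by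
  induction j, hj using Nat.le_induction with
  | base => norm_num
  | succ j hj ih => rw [pow_succ 2]; nlinarith

theorem maxLdim_le (j : ℕ) (hj : 8 ≤ j) : ∃ (c : ℝ) (n0 : ℕ), 0 ≤ c ∧ ∀ t n m : ℕ, 2 ≤ t → n0 ≤ n →
    0 < m → (maxLdim t n : ℝ) ≤ n / (j * m) * (1 / 4 + 5 / j) + c + 6 * 2 ^ (j * m) := by
  have hjR : (0 : ℝ) < j := by exact_mod_cast (show 0 < j by omega)
  obtain ⟨K0, n0, h⟩ := structure_lemma (1 / (j ^ 2 * (j + 2))) (by positivity)
  refine ⟨(j + 4) * K0 + j, n0 + 1, by positivity, fun t n m ht hn hm => ?_⟩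
  have hb : (0 : ℝ) ≤ n / (j * m) * (1 / 4 + 5 / j) + ((j + 4) * K0 + j) + 6 * 2 ^ (j * m) := by
    positivity
  refine le_trans (Nat.cast_le.mpr ?_) (Nat.floor_le hb)
  apply csSup_le'
  rintro _ ⟨P, rfl⟩
  have : IsPartialOrder (Fin n) P.le :=
    { refl := P.le_refl, trans := P.le_trans, antisymm := P.le_antisymm }
  have : Nonempty (Fin n) := ⟨⟨0, by omega⟩⟩
  obtain ⟨κ, _, cls, E, Full, rk, hκ, hrk, htri, hexc⟩ := h (Fin n) P.le (by simp; omega)
  obtain ⟨ℬ, h1, h2, h3⟩ := cover_main (fun x y => ¬ P.le y x) cls E Full rk hrk htri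
    (1 / (j ^ 2 * (j + 2))) (by positivity) (by convert hexc) j m (three_sq_le j hj) (by omega) hm
  obtain ⟨R, hR, hR'⟩ := real_of_bicl ht P ℬ h1 h2
  refine Nat.sInf_le ⟨R, hR, fun x => (hR' x).trans (Nat.le_floor ((h3 x).trans ?_))⟩
  rw [Fintype.card_fin]
  have e : (1 : ℝ) / 4 + 4 / j + (j + 2) * j * (1 / (j ^ 2 * (j + 2))) = 1 / 4 + 5 / j := by
    field_simp
    ring
  rw [e]
  have : (Fintype.card κ : ℝ) ≤ K0 := by exact_mod_cast hκ
  nlinarith

theorem upper (t : ℕ) (ht : 2 ≤ t) (b : ℝ) (hb : 1 / 4 < b) :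
    ∀ᶠ n : ℕ in atTop, (maxLdim t n : ℝ) * Real.logb 2 n / n < b := by
  obtain ⟨j, hj⟩ := exists_nat_gt (max 8 (11 / (b - 1 / 4)))
  have hj8 : 8 ≤ j := by exact_mod_cast ((le_max_left _ _).trans hj.le)
  have hjR : (8 : ℝ) ≤ j := by exact_mod_cast hj8
  have hj0 : (0 : ℝ) < j := by linarith
  have hjb : (1 / 4 + 5 / (j : ℝ)) * (j + 1) / j < b := by
    have h1 : 11 / (b - 1 / 4) < j := (le_max_right _ _).trans_lt hj
    rw [div_lt_iff₀ (by linarith)] at h1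
    rw [div_lt_iff₀ hj0]
    have h2 : (5 : ℝ) / j * (j + 1) = 5 + 5 / j := by field_simp
    have h3 : (5 : ℝ) / j ≤ 1 := by rw [div_le_one hj0]; linarith
    nlinarith
  obtain ⟨c, n0, hc, h⟩ := maxLdim_le j hj8
  let u : ℕ → ℝ := fun m => (1 / 4 + 5 / (j : ℝ)) * (j + 1) / j * (1 + 1 / m) +
    (c + 6) * (j + 1) * ((m : ℝ) ^ 1 / 2 ^ m + (m : ℝ) ^ 0 / 2 ^ m)
  have hu : Tendsto u atTop (𝓝 ((1 / 4 + 5 / (j : ℝ)) * (j + 1) / j * (1 + 0) +
      (c + 6) * (j + 1) * (0 + 0))) := by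
    apply Tendsto.add
    · exact (tendsto_const_nhds.add tendsto_one_div_atTop_nhds_zero_nat).const_mul _
    · exact ((tendsto_pow_const_div_const_pow_of_one_lt 1 one_lt_two).add
        (tendsto_pow_const_div_const_pow_of_one_lt 0 one_lt_two)).const_mul _
  simp only [add_zero, mul_one, mul_zero] at hu
  have hmt : Tendsto (fun n : ℕ => Nat.log 2 n / (j + 1)) atTop atTop := by
    rw [tendsto_atTop_atTop]
    intro k
    refine ⟨2 ^ (k * (j + 1)), fun n hn => ?_⟩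
    rw [Nat.le_div_iff_mul_le (Nat.succ_pos j)]
    exact Nat.le_log_of_pow_le one_lt_two hn
  filter_upwards [hmt.eventually (hu.eventually (gt_mem_nhds hjb)), hmt.eventually_ge_atTop 1,
    eventually_ge_atTop n0, eventually_ge_atTop 1] with n h1 h2 h3 h4
  set m := Nat.log 2 n / (j + 1) with hm
  refine lt_of_le_of_lt ?_ h1
  have hmR : (1 : ℝ) ≤ m := by exact_mod_cast h2
  have hnR : (1 : ℝ) ≤ n := by exact_mod_cast h4
  have a1 := h t n m ht h3 h2
  have a2 : (2 : ℝ) ^ (j * m) * 2 ^ m ≤ n := by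
    have : 2 ^ (j * m) * 2 ^ m ≤ n := by
      rw [← pow_add]
      refine le_trans (Nat.pow_le_pow_right (by norm_num) ?_) (Nat.pow_log_le_self 2 (by omega))
      have := Nat.div_mul_le_self (Nat.log 2 n) (j + 1)
      rw [← hm] at this
      nlinarith
    exact_mod_cast this
  have a3 : Real.logb 2 n ≤ (j + 1) * (m + 1) := by
    have h5 : n < 2 ^ ((j + 1) * (m + 1)) := by
      refine lt_of_lt_of_le (Nat.lt_pow_succ_log_self one_lt_two n)
        (Nat.pow_le_pow_right (by norm_num) ?_)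
      exact Nat.lt_mul_div_succ (Nat.log 2 n) (Nat.succ_pos j)
    rw [Real.logb_le_iff_le_rpow one_lt_two (by linarith)]
    have : ((j : ℝ) + 1) * (m + 1) = (((j + 1) * (m + 1) : ℕ) : ℝ) := by push_cast; ring
    rw [this, Real.rpow_natCast]
    exact_mod_cast h5.le
  have a4 : 0 ≤ Real.logb 2 n := Real.logb_nonneg one_lt_two hnR
  have p1 : (1 : ℝ) ≤ 2 ^ (j * m) := one_le_pow₀ one_le_two
  have p2 : (0 : ℝ) < 2 ^ m := by positivity
  have a5 : (maxLdim t n : ℝ) / n ≤ (1 / 4 + 5 / j) / (j * m) + (c + 6) / 2 ^ m := by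
    rw [div_le_iff₀ (by linarith)]
    have e1 : ((1 / 4 + 5 / (j : ℝ)) / (j * m) + (c + 6) / 2 ^ m) * n =
        n / (j * m) * (1 / 4 + 5 / j) + (c + 6) * (n / 2 ^ m) := by ring
    have e2 : (2 : ℝ) ^ (j * m) ≤ n / 2 ^ m := by rw [le_div_iff₀ p2]; exact a2
    rw [e1]
    nlinarith
  calc (maxLdim t n : ℝ) * Real.logb 2 n / n = (maxLdim t n : ℝ) / n * Real.logb 2 n := by ring
    _ ≤ ((1 / 4 + 5 / j) / (j * m) + (c + 6) / 2 ^ m) * ((j + 1) * (m + 1)) :=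
        mul_le_mul a5 a3 a4 (by positivity)
    _ = u m := by
        simp only [u]
        field_simp

end Pool.Agent.MP_bb6eef_co.H88
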